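import Pool.Agent.Q131.NA.Defs

/-!
# NA4: patterns (helper190 for helper131)
-/

set_option autoImplicit false

namespace Pool.Agent.Q190.NA

open Finset Pool.Agent.Q131.NA

theorem pat : S_pat := by
  intro V α I _ _ _ _ _ a τ hτ
  classical
  let Φ : (V → α) → (I → α) × {ω : V → α // ∀ i, ω (a i) = τ i} := fun ω =>
    (fun i => ω (a i), ⟨fun v => if h : ∃ i, a i = v then τ h.choose else ω v, by
      intro i
      have h : ∃ j, a j = a i := ⟨i, rfl⟩
      simp only [h, dif_pos]
      exact hτ _ _ h.choose_spec⟩)
  have hinj : Function.Injective Φ := by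
    intro ω ω' h
    have h1 : (fun i => ω (a i)) = fun i => ω' (a i) := congrArg Prod.fst h
    have h2 : (fun v => if h : ∃ i, a i = v then τ h.choose else ω v) =
        fun v => if h : ∃ i, a i = v then τ h.choose else ω' v :=
      congrArg Subtype.val (congrArg Prod.snd h)
    funext v
    by_cases hv : ∃ i, a i = v
    · obtain ⟨i, rfl⟩ := hv
      exact congrFun h1 i
    · have h3 := congrFun h2 v
      simp only [hv, dif_neg, not_false_eq_true] at h3
      exact h3
  have h := Fintype.card_le_of_injective Φ hinj
  rw [Fintype.card_prod, Fintype.card_fun (α := I), Fintype.card_subtype] at h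
  exact h

theorem trans : S_trans := by
  intro G _ _ _ B D hB
  classical
  by_contra hcon
  push Not at hcon
  set n := Fintype.card G with hn
  have hn0 : 0 < n := by
    rw [hn]
    exact Fintype.card_pos_iff.mpr ⟨0⟩
  -- the size of B
  have hBcard : B.card ≤ n * D := by
    have h1 : B.card = ∑ x : G, (B.filter fun p => p.1 = x).card :=
      Finset.card_eq_sum_card_fiberwise (fun p _ => Finset.mem_univ p.1)
    rw [h1]
    calc ∑ x : G, (B.filter fun p => p.1 = x).card ≤ ∑ _x : G, D := by
          apply Finset.sum_le_sum
          intro x _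
          refine le_trans ?_ (hB.row x)
          have h2 : (B.filter fun p => p.1 = x).card =
              ((B.filter fun p => p.1 = x).image (fun p => p.2)).card := by
            rw [Finset.card_image_of_injOn]
            intro p hp p' hp' h
            simp only [Finset.coe_filter, Set.mem_setOf_eq] at hp hp'
            exact Prod.ext (hp.2.trans hp'.2.symm) h
          rw [h2]
          apply Finset.card_le_card
          intro y hy
          rw [Finset.mem_image] at hy
          obtain ⟨p, hp, rfl⟩ := hy
          rw [Finset.mem_filter] at hp ⊢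
          refine ⟨Finset.mem_univ _, ?_⟩
          rw [← hp.2]
          exact hp.1
      _ = n * D := by rw [Finset.sum_const, Finset.card_univ, smul_eq_mul]
  -- every cell is counted |B| times
  have hcell : ∀ (p : G × G), (univ.filter fun q : G × G => (p.1 + q.1, p.2 + q.2) ∈ B).card ≤
      B.card := by
    intro p
    apply Finset.card_le_card_of_injOn (fun q => (p.1 + q.1, p.2 + q.2))
    · intro q hq
      simpa using hq
    · intro q _ q' _ h
      simp only [Prod.mk.injEq, add_right_inj] at h
      exact Prod.ext h.1 h.2
  have hsum : ∑ q : G × G,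
      (univ.filter fun t => ∃ i : Fin 3, ((cell i t).1 + q.1, (cell i t).2 + q.2) ∈ B).card ≤
      3 * (n * (n * D)) := by
    calc ∑ q : G × G,
        (univ.filter fun t => ∃ i : Fin 3, ((cell i t).1 + q.1, (cell i t).2 + q.2) ∈ B).card
        ≤ ∑ q : G × G, ∑ i : Fin 3,
          (univ.filter fun t => ((cell i t).1 + q.1, (cell i t).2 + q.2) ∈ B).card := by
          apply Finset.sum_le_sum
          intro q _
          refine le_trans (Finset.card_le_card ?_) Finset.card_biUnion_le
          intro t ht
          rw [Finset.mem_filter] at ht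
          obtain ⟨-, i, hi⟩ := ht
          rw [Finset.mem_biUnion]
          exact ⟨i, Finset.mem_univ _, Finset.mem_filter.mpr ⟨Finset.mem_univ _, hi⟩⟩
      _ = ∑ i : Fin 3, ∑ q : G × G,
          (univ.filter fun t => ((cell i t).1 + q.1, (cell i t).2 + q.2) ∈ B).card :=
          Finset.sum_comm
      _ = ∑ i : Fin 3, ∑ t : G,
          (univ.filter fun q : G × G => ((cell i t).1 + q.1, (cell i t).2 + q.2) ∈ B).card := by
          apply Finset.sum_congr rfl
          intro i _
          simp only [Finset.card_filter]
          exact Finset.sum_comm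
      _ ≤ ∑ _i : Fin 3, ∑ _t : G, (n * D) := by
          apply Finset.sum_le_sum
          intro i _
          apply Finset.sum_le_sum
          intro t _
          exact le_trans (hcell (cell i t)) hBcard
      _ = 3 * (n * (n * D)) := by
          simp [Finset.sum_const, hn]
  have hlow : ∑ q : G × G, (3 * D + 1) ≤ ∑ q : G × G,
      (univ.filter fun t => ∃ i : Fin 3, ((cell i t).1 + q.1, (cell i t).2 + q.2) ∈ B).card := by
    apply Finset.sum_le_sum
    intro q _
    exact hcon q.1 q.2
  have h3 : ∑ q : G × G, (3 * D + 1) = n * n * (3 * D + 1) := by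
    rw [Finset.sum_const, Finset.card_univ, Fintype.card_prod, smul_eq_mul]
  rw [h3] at hlow
  have h4 := le_trans hlow hsum
  have h5 : n * n * (3 * D + 1) = 3 * (n * (n * D)) + n * n := by ring
  have h6 : 0 < n * n := Nat.mul_pos hn0 hn0
  omega

end Pool.Agent.Q190.NA
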